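import Pool.Agent.H887.BK.D2

/-!
# Project BK: degrees in the parameter (`S_Deg`)
-/

set_option autoImplicit false
set_option linter.unusedSectionVars false
set_option linter.unusedVariables false

namespace Pool.Agent.H539.BK

open MvPolynomial Pool.Agent.H425 Pool.Agent.H887.BK

section

variable {ι : Type} [Fintype ι] [DecidableEq ι] {k : Type} [Field k]

/-- the coefficients have degree at most `m` -/
def Dg (m : ℕ) (P : MvPolynomial ι (Polynomial k)) : Prop := ∀ v, (coeff v P).natDegree ≤ m

theorem Dg.mono {m m' : ℕ} (h : m ≤ m') {P : MvPolynomial ι (Polynomial k)} (hP : Dg m P) :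
    Dg m' P := fun v => (hP v).trans h

theorem Dg.mul {m m' : ℕ} {P Q : MvPolynomial ι (Polynomial k)} (hP : Dg m P) (hQ : Dg m' Q) :
    Dg (m + m') (P * Q) := by
  intro v
  rw [coeff_mul]
  refine Polynomial.natDegree_sum_le_of_forall_le _ _ fun x _ => ?_
  exact Polynomial.natDegree_mul_le.trans (add_le_add (hP _) (hQ _))

theorem Dg.monomial (s : ι →₀ ℕ) : Dg 0 (monomial s (1 : Polynomial k)) := by
  intro v
  rw [coeff_monomial]
  split_ifs <;> simp

theorem Dg.one : Dg 0 (1 : MvPolynomial ι (Polynomial k)) := by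
  have := Dg.monomial (k := k) (0 : ι →₀ ℕ)
  exact this

theorem Dg.pow {m : ℕ} {P : MvPolynomial ι (Polynomial k)} (hP : Dg m P) (n : ℕ) :
    Dg (n * m) (P ^ n) := by
  induction n with
  | zero => rw [pow_zero, zero_mul]; exact Dg.one
  | succ n ih => rw [pow_succ, Nat.succ_mul]; exact ih.mul hP

theorem Dg.prod {α : Type} (s : Finset α) (f : α → MvPolynomial ι (Polynomial k)) (m : α → ℕ)
    (h : ∀ a ∈ s, Dg (m a) (f a)) : Dg (∑ a ∈ s, m a) (∏ a ∈ s, f a) := by
  classical
  induction s using Finset.induction_on with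
  | empty => rw [Finset.sum_empty, Finset.prod_empty]; exact Dg.one
  | insert a s ha ih =>
    rw [Finset.sum_insert ha, Finset.prod_insert ha]
    exact (h a (Finset.mem_insert_self _ _)).mul (ih fun b hb => h b (Finset.mem_insert_of_mem hb))

theorem Dg.pderiv {m : ℕ} {P : MvPolynomial ι (Polynomial k)} (hP : Dg m P) (i : ι) :
    Dg m (pderiv i P) := by
  intro v
  have h : ∀ (Q : MvPolynomial ι (Polynomial k)), coeff v (MvPolynomial.pderiv i Q) =
      coeff (v + Finsupp.single i 1) Q * ((v i + 1 : ℕ) : Polynomial k) := by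
    intro Q
    induction Q using MvPolynomial.induction_on' with
    | monomial u a =>
      rw [pderiv_monomial, coeff_monomial, coeff_monomial]
      by_cases h1 : u = v + Finsupp.single i 1
      · subst h1
        rw [if_pos rfl, if_pos (add_tsub_cancel_right _ _), Finsupp.add_apply,
          Finsupp.single_eq_same]
      · rw [if_neg h1, zero_mul]
        by_cases h2 : u - Finsupp.single i 1 = v
        · rw [if_pos h2]
          have h3 : u i = 0 := by
            by_contra h4
            apply h1
            rw [← h2, tsub_add_cancel_of_le]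
            rw [Finsupp.single_le_iff]
            exact Nat.one_le_iff_ne_zero.2 h4
          rw [h3, Nat.cast_zero, mul_zero]
        · rw [if_neg h2]
    | add p q hp hq => rw [map_add, coeff_add, coeff_add, hp, hq, add_mul]
  rw [h]
  refine Polynomial.natDegree_mul_le.trans ?_
  rw [Polynomial.natDegree_natCast, add_zero]
  exact hP _

theorem Dg.form {m d : ℕ} {c : (ι →₀ ℕ) → Polynomial k} (hc : ∀ s, (c s).natDegree ≤ m) :
    Dg m (form d c) := by
  intro v
  unfold Pool.Agent.H887.BK.form
  rw [coeff_sum]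
  refine Polynomial.natDegree_sum_le_of_forall_le _ _ fun s _ => ?_
  rw [coeff_monomial]
  split_ifs
  · exact hc s
  · simp

theorem Dg.leadv {m e : ℕ} (he : 0 < e) {P : MvPolynomial ι (Polynomial k)} (hP : Dg m P)
    (w : ι →₀ ℕ) : Dg (w.degree * m) (leadv P e he w) := by
  unfold Pool.Agent.H887.BK.leadv
  have h1 := Dg.prod Finset.univ (fun i => MvPolynomial.pderiv i P ^ qt e w i)
    (fun i => qt e w i * m) (fun i _ => (hP.pderiv i).pow _)
  have h2 := h1.mul (Dg.monomial (k := k) (emb (rm e he w)))
  refine h2.mono ?_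
  rw [add_zero, ← Finset.sum_mul]
  refine Nat.mul_le_mul_right _ ?_
  rw [Finsupp.degree_eq_sum]
  exact Finset.sum_le_sum fun i _ => Nat.div_le_self _ _

theorem natDegree_det {n : Type} [Fintype n] [DecidableEq n] (M : Matrix n n (Polynomial k))
    (m : ℕ) (h : ∀ i j, (M i j).natDegree ≤ m) : M.det.natDegree ≤ Fintype.card n * m := by
  rw [Matrix.det_apply]
  refine Polynomial.natDegree_sum_le_of_forall_le _ _ fun σ _ => ?_
  have h1 : (∏ i, M (σ i) i).natDegree ≤ Fintype.card n * m := by
    refine (Polynomial.natDegree_prod_le _ _).trans ?_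
    refine (Finset.sum_le_sum fun i _ => h (σ i) i).trans ?_
    rw [Finset.sum_const, Finset.card_univ, smul_eq_mul]
  rcases Int.units_eq_one_or (Equiv.Perm.sign σ) with hs | hs
  · rw [hs, one_smul]
    exact h1
  · rw [hs, Units.neg_smul, one_smul, Polynomial.natDegree_neg]
    exact h1

theorem natDegree_adj {n : Type} [Fintype n] [DecidableEq n] (M : Matrix n n (Polynomial k))
    (m : ℕ) (h : ∀ i j, (M i j).natDegree ≤ m) (i j : n) :
    (M.adjugate i j).natDegree ≤ Fintype.card n * m := by
  rw [Matrix.adjugate_apply]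
  refine natDegree_det _ m fun a b => ?_
  rw [Matrix.updateRow_apply]
  split_ifs
  · by_cases hb : b = i
    · subst hb
      simp
    · rw [Pi.single_eq_of_ne hb]
      simp
  · exact h a b

theorem natDegree_LM {m e : ℕ} (he : 0 < e) {P : MvPolynomial ι (Polynomial k)} (hP : Dg m P)
    (j : ℕ) (v w : Sd ι j) : (LM P e he j v w).natDegree ≤ j * m := by
  have h := hP.leadv he w.1 v.1
  rw [(mem_Sd _ _).1 w.2] at h
  exact h

/-- degrees of power series: `deg_T (coeff w F) * d ≤ |w|` -/
def Ds (d : ℕ) (F : MvPowerSeries ι (Polynomial k)) : Prop :=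
  ∀ w, (MvPowerSeries.coeff w F).natDegree * d ≤ w.degree

theorem Ds.one (d : ℕ) : Ds d (1 : MvPowerSeries ι (Polynomial k)) := by
  classical
  intro w
  rw [MvPowerSeries.coeff_one]
  split_ifs <;> simp

theorem Ds.mul {d : ℕ} {F G : MvPowerSeries ι (Polynomial k)} (hF : Ds d F) (hG : Ds d G) :
    Ds d (F * G) := by
  classical
  intro w
  rw [MvPowerSeries.coeff_mul]
  rcases Nat.eq_zero_or_pos d with hd | hd
  · rw [hd, mul_zero]
    exact Nat.zero_le _
  rw [← Nat.le_div_iff_mul_le hd]
  refine Polynomial.natDegree_sum_le_of_forall_le _ _ fun x hx => ?_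
  refine Polynomial.natDegree_mul_le.trans ?_
  rw [Nat.le_div_iff_mul_le hd, add_mul]
  have hx' := Finset.HasAntidiagonal.mem_antidiagonal.1 hx
  rw [← hx', map_add]
  exact add_le_add (hF _) (hG _)

theorem Ds.prod {d : ℕ} {α : Type} (s : Finset α) (f : α → MvPowerSeries ι (Polynomial k))
    (h : ∀ a ∈ s, Ds d (f a)) : Ds d (∏ a ∈ s, f a) := by
  classical
  induction s using Finset.induction_on with
  | empty => rw [Finset.prod_empty]; exact Ds.one d
  | insert a s ha ih =>
    rw [Finset.prod_insert ha]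
    exact (h a (Finset.mem_insert_self _ _)).mul (ih fun b hb => h b (Finset.mem_insert_of_mem hb))

theorem Ds.EKs {p d : ℕ} [Fact p.Prime] (hd : 0 < d) {s : ι →₀ ℕ} (hs : s.degree = d)
    {c : Polynomial k} (hc : c.natDegree ≤ 1) : Ds d (EKs p s c) := by
  classical
  intro w
  have h0 : MvPowerSeries.coeff w (Pool.Agent.H887.BK.EKs p s c) =
      ∑ j ∈ Finset.range (w.degree + 1),
        if j • s = w then (ebn p j : Polynomial k) * c ^ j else 0 := by
    have h00 : MvPowerSeries.coeff w (Pool.Agent.H887.BK.EKs p s c) =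
      Pool.Agent.H887.BK.EKs p s c w := rfl
    rw [h00]
    unfold Pool.Agent.H887.BK.EKs
    refine Finset.sum_congr rfl fun j _ => ?_
    by_cases h : j • s = w
    · simp only [if_pos h]
    · simp only [if_neg h]
  rw [h0, ← Nat.le_div_iff_mul_le hd]
  refine Polynomial.natDegree_sum_le_of_forall_le _ _ fun j _ => ?_
  by_cases h : j • s = w
  · rw [if_pos h, Nat.le_div_iff_mul_le hd]
    have h1 : w.degree = j * d := by rw [← h, map_nsmul, hs, smul_eq_mul]
    rw [h1]
    refine Nat.mul_le_mul_right _ ?_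
    refine Polynomial.natDegree_mul_le.trans ?_
    rw [Polynomial.natDegree_natCast, zero_add]
    refine Polynomial.natDegree_pow_le.trans ?_
    calc j * c.natDegree ≤ j * 1 := Nat.mul_le_mul_left _ hc
      _ = j := mul_one j
  · rw [if_neg h]
    simp

theorem natDegree_kap {p d : ℕ} [Fact p.Prime] (hd : 0 < d) {c : (ι →₀ ℕ) → Polynomial k}
    (hc : ∀ s, (c s).natDegree ≤ 1) (V U : ι →₀ ℕ) :
    (kap p d c V U).natDegree ≤ p * V.degree := by
  classical
  unfold kap
  split_ifs with h
  · have h1 := (Ds.prod (Sd ι d) (fun s => EKs p s (c s)) fun s hs =>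
      Ds.EKs hd ((mem_Sd _ _).1 hs) (hc s)) (p • V - U)
    have h2 : (p • V - U).degree ≤ p * V.degree := by
      have h3 : (p • V - U) + U = p • V := tsub_add_cancel_of_le h
      have h4 := congrArg Finsupp.degree h3
      rw [map_add, map_nsmul, smul_eq_mul] at h4
      omega
    exact (Nat.le_mul_of_pos_right _ hd).trans (h1.trans h2)
  · simp

theorem degree_one1 : (one1 : ι →₀ ℕ).degree = Fintype.card ι := by
  rw [Finsupp.degree_eq_sum]
  unfold one1 oneA
  simp

theorem bdeg_le {e : ℕ} (u : ι → Fin e) : bdeg u + Fintype.card ι ≤ Fintype.card ι * e := by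
  unfold bdeg
  have h1 : ∑ i, ((u i : ℕ) + 1) ≤ ∑ _i : ι, e :=
    Finset.sum_le_sum fun i _ => (u i).isLt
  rw [Finset.sum_add_distrib, Finset.sum_const, Finset.sum_const, Finset.card_univ, smul_eq_mul,
    smul_eq_mul, mul_one] at h1
  exact h1

theorem natDegree_fam (d : ℕ) (a : ι → k) (c : (ι →₀ ℕ) → k) (s : ι →₀ ℕ) :
    (fam d (fun i => Polynomial.C (a i)) (fun s => Polynomial.C (c s)) Polynomial.X s).natDegree
      ≤ 1 := by
  classical
  unfold fam
  refine Polynomial.natDegree_add_le_of_degree_le ?_ ?_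
  · refine Polynomial.natDegree_sum_le_of_forall_le _ _ fun i _ => ?_
    split_ifs <;> simp
  · split_ifs
    · simp
    · exact (Polynomial.natDegree_mul_C_le _ _).trans Polynomial.natDegree_X_le

end

theorem h_Deg : S_Deg := by
  intro ι _ _ e he
  classical
  set n := Fintype.card ι with hn
  set N0 := ∑ j ∈ Finset.range (n * e + 2), Fintype.card (Sd ι j) with hN0
  have hN : ∀ j ≤ n * e + 1, Fintype.card (Sd ι j) ≤ N0 := fun j hj =>
    Finset.single_le_sum (f := fun j => Fintype.card (Sd ι j)) (fun _ _ => Nat.zero_le _)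
      (Finset.mem_range.2 (by omega))
  refine ⟨Fintype.card (ι → Fin e) * (N0 * (n * e + 1) + n * e) + N0 * (n * e + 1), ?_⟩
  intro p _ k _ a c
  set cf := fam (e + 1) (fun i => Polynomial.C (a i)) (fun s => Polynomial.C (c s))
    (Polynomial.X : Polynomial k) with hcf
  have hc1 : ∀ s, (cf s).natDegree ≤ 1 := natDegree_fam _ _ _
  have hcp : ∀ s, (cf s ^ p).natDegree ≤ p := fun s =>
    Polynomial.natDegree_pow_le.trans (by
      calc p * (cf s).natDegree ≤ p * 1 := Nat.mul_le_mul_left _ (hc1 s)
        _ = p := mul_one p)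
  have hp : 1 ≤ p := (Fact.out : p.Prime).one_le
  refine ⟨fun j => ?_, fun j hj => ?_⟩
  · have hb : ∀ u' u, (bnum p e he cf u' u).natDegree ≤ (N0 * (n * e + 1) + n * e) * p := by
      intro u' u
      unfold bnum
      refine Polynomial.natDegree_sum_le_of_forall_le _ _ fun v _ => ?_
      refine Polynomial.natDegree_mul_le.trans ?_
      rw [add_mul]
      have hbd : bdeg u' + n ≤ n * e := bdeg_le u'
      refine add_le_add ?_ ?_
      · refine (natDegree_adj _ (bdeg u' * p) (natDegree_LM he (Dg.form hcp) _) _ _).trans ?_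
        rw [← mul_assoc]
        refine Nat.mul_le_mul_right _ (Nat.mul_le_mul (hN _ (by omega)) (by omega))
      · refine (natDegree_kap (Nat.succ_pos e) hc1 _ _).trans ?_
        rw [mul_comm]
        refine Nat.mul_le_mul_right _ ?_
        rw [map_add, degree_one1, (mem_Sd _ _).1 v.2]
        exact hbd
    refine (natDegree_det _ _ (fun x y => hb _ _)).trans ?_
    rw [← mul_assoc]
    refine Nat.mul_le_mul_right _ ?_
    refine le_trans (Nat.mul_le_mul_right _ ?_) (Nat.le_add_right _ _)
    exact Fintype.card_le_of_injective (Subtype.val : lev ι e j → ι → Fin e)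
      Subtype.val_injective
  · refine (natDegree_det _ _ (natDegree_LM he (Dg.form hc1) j)).trans ?_
    rw [mul_one]
    exact (Nat.mul_le_mul (hN j hj) hj).trans (Nat.le_add_left _ _)

end Pool.Agent.H539.BK
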