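import Pool.Agent.H887.BK.D2

/-!
# Project BK: spanning in all degrees (`S_Span`)
-/

set_option autoImplicit false
set_option linter.unusedSectionVars false
set_option linter.unusedVariables false

namespace Pool.Agent.H539.BK

open MvPolynomial Pool.Agent.H425 Pool.Agent.H887.BK

variable {ι : Type} [Fintype ι] [DecidableEq ι] {K : Type} [Field K]

section

variable (H : MvPolynomial ι K) (e : ℕ) (he : 0 < e)

theorem leadv_add (i : ι) (w : ι →₀ ℕ) :
    leadv H e he (Finsupp.single i e + w) = pderiv i H * leadv H e he w := by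
  unfold leadv
  rw [rm_add e he, qt_add e he, ← mul_assoc]
  congr 1
  have h1 : ∀ k, pderiv k H ^ ((Finsupp.single i 1 + qt e w : ι →₀ ℕ) k) =
      (if k = i then pderiv k H else 1) * pderiv k H ^ (qt e w k) := by
    intro k
    rw [Finsupp.add_apply, pow_add]
    congr 1
    by_cases h : k = i
    · subst h
      rw [Finsupp.single_eq_same, pow_one, if_pos rfl]
    · rw [Finsupp.single_eq_of_ne h, pow_zero, if_neg h]
  rw [Finset.prod_congr rfl fun k _ => h1 k, Finset.prod_mul_distrib, Finset.prod_ite_eq']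
  simp

theorem leadv_box (w : ι →₀ ℕ) (h : qt e w = 0) :
    leadv H e he w = monomial (emb (rm e he w)) 1 := by
  unfold leadv
  rw [h]
  simp

theorem leadv_hom (hH : H.IsHomogeneous (e + 1)) (w : ι →₀ ℕ) :
    (leadv H e he w).IsHomogeneous w.degree := by
  have h1 : ∀ i ∈ (Finset.univ : Finset ι),
      (pderiv i H ^ (qt e w i)).IsHomogeneous (e * qt e w i) := by
    intro i _
    have h := (hH.pderiv (i := i))
    rw [Nat.add_sub_cancel] at h
    exact h.pow _
  have h2 := IsHomogeneous.prod Finset.univ _ _ h1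
  have h3 : (monomial (emb (rm e he w)) (1 : K)).IsHomogeneous (bdeg (rm e he w)) :=
    isHomogeneous_monomial _ (degree_emb _)
  have h4 := h2.mul h3
  have h5 : ∑ i, e * qt e w i + bdeg (rm e he w) = w.degree := by
    rw [← degree_qt_rm e he w, ← Finset.mul_sum, Finsupp.degree_eq_sum, add_comm]
    rfl
  rw [h5] at h4
  exact h4

/-- the span of the leading polynomials -/
noncomputable def Sp (j : ℕ) : Submodule K (MvPolynomial ι K) :=
  Submodule.span K (Set.range (fun w : Sd ι j => leadv H e he w.1))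

/-- the polynomials with a representation in degree `j` -/
def Rp (j : ℕ) : Submodule K (MvPolynomial ι K) where
  carrier := {P | ∃ (a : ι → MvPolynomial ι K) (c : (ι → Fin e) → K),
    (∀ i, e ≤ j → (a i).IsHomogeneous (j - e)) ∧ (∀ i, j < e → a i = 0) ∧
    P = ∑ i, a i * pderiv i H + ∑ u with ∑ i, (u i : ℕ) = j, monomial (emb u) (c u)}
  add_mem' := by
    rintro P P' ⟨a, c, h1, h2, h3⟩ ⟨a', c', h1', h2', h3'⟩
    refine ⟨a + a', c + c', fun i hi => (h1 i hi).add (h1' i hi), fun i hi => ?_, ?_⟩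
    · rw [Pi.add_apply, h2 i hi, h2' i hi, add_zero]
    · rw [h3, h3']
      simp only [Pi.add_apply, add_mul, Finset.sum_add_distrib, map_add]
      ring
  zero_mem' := ⟨0, 0, fun i _ => isHomogeneous_zero _ _ _, fun i _ => rfl, by simp⟩
  smul_mem' := by
    rintro r P ⟨a, c, h1, h2, h3⟩
    refine ⟨r • a, r • c, fun i hi => ?_, fun i hi => ?_, ?_⟩
    · exact (homogeneousSubmodule ι K (j - e)).smul_mem r (h1 i hi)
    · rw [Pi.smul_apply, h2 i hi, smul_zero]
    · rw [h3, smul_add, Finset.smul_sum, Finset.smul_sum]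
      congr 1
      · exact Finset.sum_congr rfl fun i _ => by rw [Pi.smul_apply, smul_mul_assoc]
      · exact Finset.sum_congr rfl fun i _ => by rw [Pi.smul_apply, smul_monomial]

variable {H e}

theorem leadv_mem_Rp (hH : H.IsHomogeneous (e + 1)) (j : ℕ) (w : ι →₀ ℕ) (hw : w.degree = j) :
    leadv H e he w ∈ Rp H e j := by
  by_cases h : qt e w = 0
  · rw [leadv_box H e he w h]
    have hd : ∑ i, ((rm e he w i : Fin e) : ℕ) = j := by
      have := degree_qt_rm e he w
      rw [h, map_zero, mul_zero, add_zero] at this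
      rw [this, hw]
    refine ⟨0, Pi.single (rm e he w) 1, fun i _ => isHomogeneous_zero _ _ _, fun i _ => rfl, ?_⟩
    rw [Finset.sum_eq_zero (fun i _ => by rw [Pi.zero_apply, zero_mul]), zero_add,
      Finset.sum_eq_single (rm e he w)]
    · rw [Pi.single_eq_same]
    · intro u _ hu
      rw [Pi.single_eq_of_ne hu, monomial_zero]
    · intro hu
      exact absurd (Finset.mem_filter.2 ⟨Finset.mem_univ (rm e he w), hd⟩) hu
  · obtain ⟨i, hi⟩ : ∃ i, qt e w i ≠ 0 := by
      by_contra hcon
      push Not at hcon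
      exact h (Finsupp.ext hcon)
    have hwi : e ≤ w i := by
      by_contra hcon
      push Not at hcon
      apply hi
      show w i / e = 0
      exact Nat.div_eq_of_lt hcon
    obtain ⟨w', rfl⟩ : ∃ w', w = Finsupp.single i e + w' := by
      refine ⟨w - Finsupp.single i e, ?_⟩
      rw [add_tsub_cancel_of_le]
      rw [Finsupp.single_le_iff]
      exact hwi
    have hd : e + w'.degree = j := by
      rw [← hw, map_add, Finsupp.degree_single]
    rw [leadv_add]
    refine ⟨Pi.single i (leadv H e he w'), 0, fun k hk => ?_, fun k hk => by omega, ?_⟩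
    · by_cases hki : k = i
      · subst hki
        rw [Pi.single_eq_same]
        have h2 := leadv_hom H e he hH w'
        have h3 : j - e = w'.degree := by omega
        rw [h3]
        exact h2
      · rw [Pi.single_eq_of_ne hki]
        exact isHomogeneous_zero _ _ _
    · rw [Finset.sum_eq_single i]
      · rw [Pi.single_eq_same, Finset.sum_eq_zero (fun u _ => by rw [Pi.zero_apply, monomial_zero]),
          add_zero, mul_comm]
      · intro k _ hk
        rw [Pi.single_eq_of_ne hk, zero_mul]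
      · intro hi
        exact absurd (Finset.mem_univ _) hi

theorem Sp_le_Rp (hH : H.IsHomogeneous (e + 1)) (j : ℕ) : Sp H e he j ≤ Rp H e j := by
  rw [Sp, Submodule.span_le]
  rintro _ ⟨w, rfl⟩
  exact leadv_mem_Rp he hH j w.1 ((mem_Sd _ _).1 w.2)

theorem spanA (hH : H.IsHomogeneous (e + 1)) (j : ℕ) (hdet : (LM H e he j).det ≠ 0)
    (P : MvPolynomial ι K) (hP : P.IsHomogeneous j) : P ∈ Sp H e he j := by
  have hu : IsUnit (LM H e he j).det := isUnit_iff_ne_zero.2 hdet
  set y : Sd ι j → K := (LM H e he j)⁻¹.mulVec (fun v => coeff v.1 P) with hy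
  have hy1 : (LM H e he j).mulVec y = fun v => coeff v.1 P := by
    rw [hy, Matrix.mulVec_mulVec, Matrix.mul_nonsing_inv _ hu, Matrix.one_mulVec]
  have hP2 : P = ∑ w : Sd ι j, y w • leadv H e he w.1 := by
    ext v
    rw [coeff_sum]
    by_cases hv : v.degree = j
    · have h1 := congrFun hy1 ⟨v, (mem_Sd _ _).2 hv⟩
      simp only at h1
      rw [← h1, Matrix.mulVec, dotProduct]
      refine Finset.sum_congr rfl fun w _ => ?_
      rw [coeff_smul, smul_eq_mul, mul_comm]
      rfl
    · rw [hP.coeff_eq_zero hv]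
      symm
      refine Finset.sum_eq_zero fun w _ => ?_
      rw [coeff_smul, (leadv_hom H e he hH w.1).coeff_eq_zero, smul_zero]
      rw [(mem_Sd _ _).1 w.2]
      exact hv
  rw [hP2]
  exact Submodule.sum_mem _ fun w _ => Submodule.smul_mem _ _ (Submodule.subset_span ⟨w, rfl⟩)

theorem spanB (j : ℕ) (h : ∀ v : Sd ι j, monomial v.1 (1 : K) ∈ Sp H e he j) :
    (LM H e he j).det ≠ 0 := by
  have h1 : ∀ v : Sd ι j, ∃ y : Sd ι j → K, ∑ w, y w • leadv H e he w.1 = monomial v.1 (1 : K) :=
    fun v => (Submodule.mem_span_range_iff_exists_fun K).1 (h v)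
  choose Y hY using h1
  have h2 : LM H e he j * Matrix.of (fun w v => Y v w) = 1 := by
    ext v' v
    rw [Matrix.mul_apply]
    have h3 := congrArg (coeff v'.1) (hY v)
    rw [coeff_sum, coeff_monomial] at h3
    rw [Matrix.one_apply]
    have h4 : (if v' = v then (1 : K) else 0) = if v.1 = v'.1 then 1 else 0 := by
      by_cases hv : v' = v
      · rw [if_pos hv, if_pos (by rw [hv])]
      · rw [if_neg hv, if_neg (fun h => hv (Subtype.ext h.symm))]
    rw [h4, ← h3]
    refine Finset.sum_congr rfl fun w _ => ?_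
    rw [coeff_smul, smul_eq_mul, mul_comm]
    rfl
  intro h0
  have h3 := congrArg Matrix.det h2
  rw [Matrix.det_mul, h0, zero_mul, Matrix.det_one] at h3
  exact zero_ne_one h3

theorem exists_le_degree (w : ι →₀ ℕ) (m : ℕ) : ∃ w0 ≤ w, w0.degree = w.degree - m := by
  induction m with
  | zero => exact ⟨w, le_rfl, by simp⟩
  | succ m ih =>
    obtain ⟨w0, h1, h2⟩ := ih
    by_cases h0 : w0 = 0
    · refine ⟨w0, h1, ?_⟩
      rw [h0, map_zero] at h2
      rw [h0, map_zero]
      omega
    · obtain ⟨i, hi⟩ : ∃ i, w0 i ≠ 0 := by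
        by_contra hcon
        push Not at hcon
        exact h0 (Finsupp.ext hcon)
      obtain ⟨w1, rfl⟩ : ∃ w1, w0 = Finsupp.single i 1 + w1 := by
        refine ⟨w0 - Finsupp.single i 1, ?_⟩
        rw [add_tsub_cancel_of_le]
        rw [Finsupp.single_le_iff]
        exact Nat.one_le_iff_ne_zero.2 hi
      refine ⟨w1, le_trans le_add_self h1, ?_⟩
      rw [map_add, Finsupp.degree_single] at h2
      omega

theorem mono_hom_mem {M : Submodule K (MvPolynomial ι K)} (j : ℕ)
    (h : ∀ v : ι →₀ ℕ, v.degree = j → monomial v (1 : K) ∈ M) (P : MvPolynomial ι K)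
    (hP : P.IsHomogeneous j) : P ∈ M := by
  rw [P.as_sum]
  refine Submodule.sum_mem _ fun v hv => ?_
  have h1 : monomial v (coeff v P) = coeff v P • monomial v (1 : K) := by
    rw [smul_monomial, smul_eq_mul, mul_one]
  rw [h1]
  refine Submodule.smul_mem _ _ (h v ?_)
  by_contra hcon
  exact (mem_support_iff.1 hv) (hP.coeff_eq_zero hcon)

theorem box_empty (he : 0 < e) (j : ℕ) (hj : Fintype.card ι * (e - 1) + 1 ≤ j) :
    (Finset.univ.filter (fun u : ι → Fin e => ∑ i, (u i : ℕ) = j)) = ∅ := by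
  rw [Finset.filter_eq_empty_iff]
  intro u _ hu
  have h1 : ∑ i, (u i : ℕ) ≤ ∑ _i : ι, (e - 1) :=
    Finset.sum_le_sum fun i _ => by have := (u i).isLt; omega
  rw [Finset.sum_const, Finset.card_univ, smul_eq_mul] at h1
  omega

theorem Rp_all (hH : H.IsHomogeneous (e + 1))
    (hdet : ∀ j ≤ Fintype.card ι * e + 1, (LM H e he j).det ≠ 0) (j : ℕ) (P : MvPolynomial ι K)
    (hP : P.IsHomogeneous j) : P ∈ Rp H e j := by
  have hj0 : Fintype.card ι * (e - 1) + 1 ≤ Fintype.card ι * e + 1 :=
    Nat.add_le_add_right (Nat.mul_le_mul_left _ (Nat.sub_le _ _)) _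
  by_cases hj : j ≤ Fintype.card ι * e + 1
  · exact Sp_le_Rp he hH j (spanA he hH j (hdet j hj) P hP)
  · refine mono_hom_mem j (fun w hw => ?_) P hP
    obtain ⟨j0, hj0d⟩ : ∃ j0, j0 = Fintype.card ι * (e - 1) + 1 := ⟨_, rfl⟩
    rw [← hj0d] at hj0
    obtain ⟨w0, h1, h2⟩ := exists_le_degree w (j - j0)
    have hw0 : w0.degree = j0 := by omega
    obtain ⟨w1, rfl⟩ : ∃ w1, w = w1 + w0 := ⟨w - w0, (tsub_add_cancel_of_le h1).symm⟩
    have hw0R : monomial w0 (1 : K) ∈ Rp H e j0 :=
      Sp_le_Rp he hH j0 (spanA he hH j0 (hdet j0 hj0) _ (isHomogeneous_monomial _ hw0))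
    obtain ⟨a, c, a1, a2, a3⟩ := hw0R
    rw [box_empty he j0 hj0d.ge, Finset.sum_empty, add_zero] at a3
    rw [map_add, hw0] at hw
    by_cases hej : e ≤ j0
    · refine ⟨fun i => monomial w1 1 * a i, 0, fun i _ => ?_, fun i hi => by omega, ?_⟩
      · have h3 := (isHomogeneous_monomial (1 : K) (rfl : w1.degree = w1.degree)).mul (a1 i hej)
        have h4 : w1.degree + (j0 - e) = j - e := by omega
        rw [h4] at h3
        exact h3
      · rw [Finset.sum_eq_zero (s := Finset.filter _ _) (fun u _ => by rw [Pi.zero_apply, monomial_zero]), add_zero]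
        have h3 : monomial (w1 + w0) (1 : K) = monomial w1 1 * monomial w0 1 := by
          rw [monomial_mul, one_mul]
        rw [h3, a3, Finset.mul_sum]
        exact Finset.sum_congr rfl fun i _ => by rw [mul_assoc]
    · exfalso
      rw [Finset.sum_eq_zero (fun i _ => by rw [a2 i (by omega), zero_mul])] at a3
      exact one_ne_zero (monomial_eq_zero.1 a3)

theorem Sp_mul (i : ι) (j : ℕ) (P : MvPolynomial ι K) (hP : P ∈ Sp H e he j) :
    P * pderiv i H ∈ Sp H e he (e + j) := by
  rw [Sp] at hP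
  induction hP using Submodule.span_induction with
  | mem x hx =>
    obtain ⟨w, rfl⟩ := hx
    simp only
    rw [mul_comm, ← leadv_add]
    refine Submodule.subset_span ⟨⟨Finsupp.single i e + w.1, ?_⟩, rfl⟩
    rw [mem_Sd, map_add, Finsupp.degree_single, (mem_Sd _ _).1 w.2]
  | zero => rw [zero_mul]; exact Submodule.zero_mem _
  | add x y _ _ hx hy => rw [add_mul]; exact Submodule.add_mem _ hx hy
  | smul r x _ hx => rw [smul_mul_assoc]; exact Submodule.smul_mem _ _ hx

theorem Sp_all (hH : H.IsHomogeneous (e + 1))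
    (hdet : ∀ j ≤ Fintype.card ι * e + 1, (LM H e he j).det ≠ 0) (j : ℕ) :
    ∀ (P : MvPolynomial ι K), P.IsHomogeneous j → P ∈ Sp H e he j := by
  induction j using Nat.strong_induction_on with
  | _ j ih =>
    intro P hP
    obtain ⟨a, c, a1, a2, a3⟩ := Rp_all he hH hdet j P hP
    rw [a3]
    refine Submodule.add_mem _ (Submodule.sum_mem _ fun i _ => ?_) (Submodule.sum_mem _ fun u hu => ?_)
    · by_cases hej : e ≤ j
      · have h1 := ih (j - e) (by omega) (a i) (a1 i hej)
        have h2 := Sp_mul he i (j - e) _ h1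
        rw [Nat.add_sub_cancel' hej] at h2
        exact h2
      · rw [a2 i (by omega), zero_mul]
        exact Submodule.zero_mem _
    · have hu' := (Finset.mem_filter.1 hu).2
      have h1 : monomial (emb u) (c u) = c u • monomial (emb u) (1 : K) := by
        rw [smul_monomial, smul_eq_mul, mul_one]
      rw [h1]
      refine Submodule.smul_mem _ _ (Submodule.subset_span ⟨⟨emb u, ?_⟩, ?_⟩)
      · rw [mem_Sd, degree_emb]
        exact hu'
      · simp only
        have h2 : rm e he (emb u) = u := rm_small e he u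
        rw [leadv_box H e he (emb u) (qt_small e he u), h2]

end

theorem h_Span : S_Span := by
  intro ι _ _ K _ e he H hH hdet
  refine ⟨fun j => spanB he j fun v => Sp_all he hH hdet j _
    (isHomogeneous_monomial _ ((mem_Sd _ _).1 v.2)), fun j P hP => Rp_all he hH hdet j P hP, ?_⟩
  intro K' _ φ x hx
  funext i
  obtain ⟨j0, hj0d⟩ : ∃ j0, j0 = Fintype.card ι * (e - 1) + 1 := ⟨_, rfl⟩
  obtain ⟨a, c, a1, a2, a3⟩ := Rp_all he hH hdet j0 (X i ^ j0)
    (by have := (isHomogeneous_X K i).pow j0; rwa [one_mul] at this)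
  rw [box_empty he j0 hj0d.ge, Finset.sum_empty, add_zero] at a3
  have h1 := congrArg (eval₂ φ x) a3
  rw [eval₂_pow, eval₂_X, eval₂_sum, Finset.sum_eq_zero] at h1
  · exact pow_eq_zero_iff (by omega) |>.1 h1
  · intro k _
    rw [eval₂_mul, hx k, mul_zero]

end Pool.Agent.H539.BK
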